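import Pool.Agent.Q222.DS.Main

/-!
# MP_7e7dce_lc: the degree spectra of `V` and `V × ℤ` coincide
-/

set_option autoImplicit false

namespace Pool.Agent.Results.MP_7e7dce_lc.DegreeSpectraEqual

open Pool.Agent.Q222.DS

universe u

/-- The structure `(ℕ; plus, less, zero)` is isomorphic to `(V; +, <, 0)`. -/
def IsCopyV (V : Type u) [AddCommGroup V] [LinearOrder V]
    (plus : ℕ → ℕ → ℕ) (less : ℕ → ℕ → Prop) (zero : ℕ) : Prop :=
  ∃ e : ℕ ≃ V, (∀ a b, e (plus a b) = e a + e b) ∧ (∀ a b, less a b ↔ e a < e b) ∧ e zero = 0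

/-- The structure `(ℕ; plus, less, zero, one)` is isomorphic to `(V × ℤ; +, <, 0, 1)`, where
`V × ℤ` is ordered lexicographically with the `V`-coordinate dominant, and `1 = (0, 1)`. -/
def IsCopyP (V : Type u) [AddCommGroup V] [LinearOrder V]
    (plus : ℕ → ℕ → ℕ) (less : ℕ → ℕ → Prop) (zero one : ℕ) : Prop :=
  ∃ e : ℕ ≃ V ×ₗ ℤ, (∀ a b, e (plus a b) = e a + e b) ∧ (∀ a b, less a b ↔ e a < e b) ∧
    e zero = 0 ∧ e one = toLex ((0 : V), (1 : ℤ))

/-- The atomic diagram of `(ℕ; plus, less, zero)`: the set of the codes of the true sentences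
`a + b = c` (code `4⟨⟨a, b⟩, c⟩`), `a < b` (code `4⟨a, b⟩ + 1`) and `0 = a` (code `4a + 2`). -/
def diagV (plus : ℕ → ℕ → ℕ) (less : ℕ → ℕ → Prop) (zero : ℕ) : Set ℕ :=
  {n | (∃ a b, n = 4 * Nat.pair (Nat.pair a b) (plus a b)) ∨
    (∃ a b, less a b ∧ n = 4 * Nat.pair a b + 1) ∨ n = 4 * zero + 2}

/-- The atomic diagram of `(ℕ; plus, less, zero, one)`: the same, and the true sentence `1 = a`
(code `4a + 3`). -/
def diagP (plus : ℕ → ℕ → ℕ) (less : ℕ → ℕ → Prop) (zero one : ℕ) : Set ℕ :=
  {n | n ∈ diagV plus less zero ∨ n = 4 * one + 3}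

open Classical in
/-- The Turing degree of a set of natural numbers (the degree of its characteristic function). -/
noncomputable def degSet (S : Set ℕ) : TuringDegree :=
  toAntisymmetrization TuringReducible (fun n => Part.some (if n ∈ S then 1 else 0))

/-- The degree spectrum of `V`: all degrees of copies of `V` with domain `ℕ`. -/
def DgSpV (V : Type u) [AddCommGroup V] [LinearOrder V] : Set TuringDegree :=
  {d | ∃ plus less zero, IsCopyV V plus less zero ∧ d = degSet (diagV plus less zero)}

/-- The degree spectrum of the Presburger group `V × ℤ`. -/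
def DgSpP (V : Type u) [AddCommGroup V] [LinearOrder V] : Set TuringDegree :=
  {d | ∃ plus less zero one, IsCopyP V plus less zero one ∧
    d = degSet (diagP plus less zero one)}

lemma degSet_eq {S T : Set ℕ} (h1 : ComputableIn {((chr T : ℕ → ℕ) : ℕ →. ℕ)} (chr S))
    (h2 : ComputableIn {((chr S : ℕ → ℕ) : ℕ →. ℕ)} (chr T)) : degSet S = degSet T := by
  unfold degSet toAntisymmetrization
  exact Quotient.sound ⟨h1, h2⟩

lemma diagV_eq (plus : ℕ → ℕ → ℕ) (less : ℕ → ℕ → Prop) (zero : ℕ) :
    diagV plus less zero = gdiag plus less zero (4 * zero + 2) := by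
  ext n
  unfold diagV gdiag
  simp only [Set.mem_ofPred_eq, or_self]

lemma diagP_eq (plus : ℕ → ℕ → ℕ) (less : ℕ → ℕ → Prop) (zero one : ℕ) :
    diagP plus less zero one = gdiag plus less zero (4 * one + 3) := by
  ext n
  unfold diagP diagV gdiag
  simp only [Set.mem_ofPred_eq, or_assoc]

/-- **Theorem.** For every nontrivial countable divisible ordered abelian group `V`, the degree
spectra of `V` and of the Presburger group `V × ℤ` are equal. -/
theorem result (V : Type u) [AddCommGroup V] [LinearOrder V] [IsOrderedAddMonoid V]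
    [Countable V] [Nontrivial V] (hdiv : ∀ n : ℕ, 0 < n → ∀ v : V, ∃ w : V, n • w = v) :
    DgSpV V = DgSpP V := by
  ext d
  constructor
  · rintro ⟨plus, less, zero, ⟨e, hp, hl, hz⟩, rfl⟩
    -- the copy of `V × ℤ`
    set e' := up e with he'
    refine ⟨fun a b => e'.symm (e' a + e' b), fun a b => e' a < e' b, e'.symm 0,
      e'.symm (toLex ((0 : V), (1 : ℤ))), ⟨e', fun a b => by simp, fun a b => Iff.rfl, by simp,
        by simp⟩, ?_⟩
    rw [diagV_eq, diagP_eq]
    apply degSet_eq
    · have h1 := chr_cop (e := e') (plus := fun a b => e'.symm (e' a + e' b))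
        (less := fun a b => e' a < e' b) (fun a b => by simp) (fun a b => Iff.rfl)
        (z := e'.symm 0) (w := 4 * e'.symm (toLex ((0 : V), (1 : ℤ))) + 3) (by omega)
        (cin_oracle _)
      exact cop_chr ((up_cop e _).1 h1) hp hl _ _
    · have h1 := chr_cop (e := e) hp hl (z := zero) (w := 4 * zero + 2) (by omega) (cin_oracle _)
      exact cop_chr (plus := fun a b => e'.symm (e' a + e' b)) (less := fun a b => e' a < e' b)
        ((up_cop e _).2 h1) (fun a b => by simp [he']) (fun a b => Iff.rfl) _ _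
  · rintro ⟨plus, less, zero, one, ⟨e, hp, hl, hz, ho⟩, rfl⟩
    have h1 := chr_cop (e := e) hp hl (z := zero) (w := 4 * one + 3) (by omega) (cin_oracle _)
    obtain ⟨g0, hg0⟩ := main_down hdiv h1
    obtain ⟨g, hg, hcode⟩ := coding hg0 (f := chr (gdiag plus less zero (4 * one + 3)))
      (cin_oracle _)
    refine ⟨fun a b => g.symm (g a + g b), fun a b => g a < g b, g.symm 0,
      ⟨g, fun a b => by simp, fun a b => Iff.rfl, by simp⟩, ?_⟩
    rw [diagV_eq, diagP_eq]
    apply degSet_eq
    · refine hcode _ ?_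
      exact chr_cop (e := g) (plus := fun a b => g.symm (g a + g b)) (less := fun a b => g a < g b)
        (z := g.symm 0) (w := 4 * g.symm 0 + 2) (fun a b => by simp) (fun a b => Iff.rfl)
        (by omega) (cin_oracle _)
    · exact cop_chr (plus := fun a b => g.symm (g a + g b)) (less := fun a b => g a < g b)
        hg (fun a b => by simp) (fun a b => Iff.rfl) _ _

end Pool.Agent.Results.MP_7e7dce_lc.DegreeSpectraEqual
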